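import Pool.Agent.L7h59.TW.Def

/-!
# TW-DIR: from finite quotients to finite orbits
-/

set_option autoImplicit false

namespace Pool.Agent.L7h70.TW

open Pool.Agent.L7h59.TW
open Pool.Agent.Y69.FJ (FinSub)

noncomputable section

section mapHom

variable {k₁ k₂ k₃ : Type} [Field k₁] [Field k₂] [Field k₃] {M : Type} [Monoid M]
  [MulSemiringAction M k₁] [MulSemiringAction M k₂] [MulSemiringAction M k₃]

/-- The homomorphism `k₁ ⋊ M → k₂ ⋊ M` of an equivariant homomorphism of the coefficients. -/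
def mapHom (j : k₁ →+* k₂) (hj : ∀ (m : M) (a : k₁), j (m • a) = m • j a) :
    SkewMonoidAlgebra k₁ M →+* SkewMonoidAlgebra k₂ M :=
  SkewMonoidAlgebra.liftNCRingHom (SkewMonoidAlgebra.singleOneRingHom.comp j)
    (SkewMonoidAlgebra.of k₂ M) (by
      intro x y
      show SkewMonoidAlgebra.single 1 (j (y • x)) * SkewMonoidAlgebra.single y 1 =
        SkewMonoidAlgebra.single y 1 * SkewMonoidAlgebra.single 1 (j x)
      rw [SkewMonoidAlgebra.single_mul_single, SkewMonoidAlgebra.single_mul_single, one_mul,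
        mul_one, smul_one, mul_one, one_mul, hj])

theorem mapHom_single (j : k₁ →+* k₂) (hj : ∀ (m : M) (a : k₁), j (m • a) = m • j a) (m : M)
    (a : k₁) : mapHom j hj (SkewMonoidAlgebra.single m a) = SkewMonoidAlgebra.single m (j a) := by
  show SkewMonoidAlgebra.liftNC _ _ _ = _
  rw [SkewMonoidAlgebra.liftNC_single]
  show SkewMonoidAlgebra.single 1 (j a) * SkewMonoidAlgebra.single m 1 = _
  rw [SkewMonoidAlgebra.single_mul_single, one_mul, one_smul, mul_one]

/-- two ring homomorphisms which agree on the `single`s are equal -/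
theorem hom_ext {R : Type} [Ring R] {f g : SkewMonoidAlgebra k₁ M →+* R}
    (h : ∀ m a, f (SkewMonoidAlgebra.single m a) = g (SkewMonoidAlgebra.single m a)) : f = g := by
  have h1 : (f : SkewMonoidAlgebra k₁ M →+ R) = g := SkewMonoidAlgebra.addHom_ext h
  ext x
  exact DFunLike.congr_fun h1 x

theorem mapHom_coeff (j : k₁ →+* k₂) (hj : ∀ (m : M) (a : k₁), j (m • a) = m • j a)
    (x : SkewMonoidAlgebra k₁ M) (m : M) : (mapHom j hj x).coeff m = j (x.coeff m) := by
  classical
  induction x using SkewMonoidAlgebra.induction_on with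
  | zero => simp
  | single m' a =>
    rw [mapHom_single, SkewMonoidAlgebra.coeff_single_apply, SkewMonoidAlgebra.coeff_single_apply]
    split_ifs <;> simp
  | add x y hx hy =>
    rw [map_add, SkewMonoidAlgebra.coeff_add, SkewMonoidAlgebra.coeff_add, Finsupp.add_apply,
      Finsupp.add_apply, map_add, hx, hy]

theorem mapHom_injective (j : k₁ →+* k₂) (hj : ∀ (m : M) (a : k₁), j (m • a) = m • j a) :
    Function.Injective (mapHom j hj) := by
  intro x y h
  refine SkewMonoidAlgebra.ext fun m => j.injective ?_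
  rw [← mapHom_coeff j hj, ← mapHom_coeff j hj, h]

theorem mapHom_range (j : k₁ →+* k₂) (hj : ∀ (m : M) (a : k₁), j (m • a) = m • j a)
    (y : SkewMonoidAlgebra k₂ M) (hy : ∀ m, y.coeff m ∈ Set.range j) :
    y ∈ Set.range (mapHom j hj) := by
  classical
  rw [← SkewMonoidAlgebra.sum_single y, SkewMonoidAlgebra.sum_def]
  show Finsupp.sum _ _ ∈ (mapHom j hj).range
  refine sum_mem fun m _ => ?_
  obtain ⟨a, ha⟩ := hy m
  exact ⟨SkewMonoidAlgebra.single m a, by rw [mapHom_single, ha]⟩

theorem mapHom_comp (j : k₁ →+* k₂) (hj : ∀ (m : M) (a : k₁), j (m • a) = m • j a)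
    (j' : k₂ →+* k₃) (hj' : ∀ (m : M) (a : k₂), j' (m • a) = m • j' a)
    (hjj : ∀ (m : M) (a : k₁), (j'.comp j) (m • a) = m • (j'.comp j) a) :
    (mapHom j' hj').comp (mapHom j hj) = mapHom (j'.comp j) hjj := by
  refine hom_ext fun m a => ?_
  rw [RingHom.comp_apply, mapHom_single, mapHom_single, mapHom_single, RingHom.comp_apply]

end mapHom

section sym

variable (K : RFun) {k₁ k₂ k₃ : Type} [Field k₁] [Field k₂] [Field k₃] {G : Type} [Group G]
  [MulSemiringAction G k₁] [MulSemiringAction G k₂] [MulSemiringAction G k₃]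

theorem conjHom_single (g : G) {H L : Subgroup G} (h : ∀ x ∈ H, g * x * g⁻¹ ∈ L) (x : H)
    (a : k₁) : conjHom g h (SkewMonoidAlgebra.single x a) =
      SkewMonoidAlgebra.single (⟨g * x * g⁻¹, h x x.2⟩ : L) (g • a) := by
  show SkewMonoidAlgebra.liftNC _ _ _ = _
  rw [SkewMonoidAlgebra.liftNC_single]
  show SkewMonoidAlgebra.single 1 (g • a) *
    SkewMonoidAlgebra.single (⟨g * x * g⁻¹, h x x.2⟩ : L) 1 = _
  rw [SkewMonoidAlgebra.single_mul_single, one_mul, one_smul, mul_one]

theorem incHom_single (H : Subgroup G) (x : H) (a : k₁) :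
    incHom k₁ H (SkewMonoidAlgebra.single x a) = SkewMonoidAlgebra.single (x : G) a := by
  show SkewMonoidAlgebra.mapDomain _ _ = _
  rw [SkewMonoidAlgebra.mapDomain_single]
  rfl

/-- equivariance for a subgroup -/
theorem equivSub {j : k₁ →+* k₂} (hj : ∀ (g : G) (a : k₁), j (g • a) = g • j a)
    (H : Subgroup G) (x : H) (a : k₁) : j (x • a) = x • j a := hj x a

/-- the map of the symbols -/
def symMap (j : k₁ →+* k₂) (hj : ∀ (g : G) (a : k₁), j (g • a) = g • j a) :
    FreeAbelianGroup (Sym K k₁ G) →+ FreeAbelianGroup (Sym K k₂ G) :=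
  FreeAbelianGroup.lift fun s => sym K s.1 (K.map (mapHom j (equivSub hj s.1.1)) s.2)

theorem symMap_sym (j : k₁ →+* k₂) (hj : ∀ (g : G) (a : k₁), j (g • a) = g • j a)
    (H : FinSub G) (x : K.F (SkewMonoidAlgebra k₁ H.1)) :
    symMap K j hj (sym K H x) = sym K H (K.map (mapHom j (equivSub hj H.1)) x) :=
  FreeAbelianGroup.lift_apply_of _ _

theorem asm_sym (H : FinSub G) (x : K.F (SkewMonoidAlgebra k₁ H.1)) :
    asmPre K k₁ G (sym K H x) = K.map (incHom k₁ H.1) x :=
  FreeAbelianGroup.lift_apply_of _ _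

variable {K}

theorem asm_symMap (B : Blow K) (j : k₁ →+* k₂) (hj : ∀ (g : G) (a : k₁), j (g • a) = g • j a)
    (z : FreeAbelianGroup (Sym K k₁ G)) :
    asmPre K k₂ G (symMap K j hj z) = K.map (mapHom j hj) (asmPre K k₁ G z) := by
  have h : (asmPre K k₂ G).comp (symMap K j hj) =
      (K.map (mapHom j hj)).comp (asmPre K k₁ G) := by
    refine FreeAbelianGroup.lift_ext _ _ fun s => ?_
    obtain ⟨H, x⟩ := s
    show asmPre K k₂ G (symMap K j hj (sym K H x)) = K.map _ (asmPre K k₁ G (sym K H x))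
    have e : (incHom k₂ H.1).comp (mapHom j (equivSub hj H.1)) =
        (mapHom j hj).comp (incHom k₁ H.1) := by
      refine hom_ext fun m a => ?_
      rw [RingHom.comp_apply, RingHom.comp_apply, mapHom_single, incHom_single, incHom_single,
        mapHom_single]
    rw [symMap_sym, asm_sym, asm_sym, B.map_map, B.map_map, e]
  exact DFunLike.congr_fun h z

theorem symMap_rel (B : Blow K) (j : k₁ →+* k₂) (hj : ∀ (g : G) (a : k₁), j (g • a) = g • j a)
    (z : FreeAbelianGroup (Sym K k₁ G)) (hz : z ∈ AddSubgroup.closure (Rel K k₁ G)) :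
    symMap K j hj z ∈ AddSubgroup.closure (Rel K k₂ G) := by
  have h : AddSubgroup.closure (Rel K k₁ G) ≤
      (AddSubgroup.closure (Rel K k₂ G)).comap (symMap K j hj) := by
    rw [AddSubgroup.closure_le]
    rintro _ (⟨H, x, y, rfl⟩ | ⟨g, H, L, h, x, rfl⟩)
    · refine AddSubgroup.subset_closure (Or.inl ⟨H, K.map (mapHom j (equivSub hj H.1)) x,
        K.map (mapHom j (equivSub hj H.1)) y, ?_⟩)
      rw [map_sub, map_add, symMap_sym, symMap_sym, symMap_sym, map_add]
    · refine AddSubgroup.subset_closure (Or.inr ⟨g, H, L, h,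
        K.map (mapHom j (equivSub hj H.1)) x, ?_⟩)
      have e : (mapHom j (equivSub hj L.1)).comp (conjHom g h) =
          (conjHom g h).comp (mapHom j (equivSub hj H.1)) := by
        refine hom_ext fun m a => ?_
        rw [RingHom.comp_apply, RingHom.comp_apply, mapHom_single, conjHom_single, conjHom_single,
          mapHom_single, hj]
      rw [map_sub, symMap_sym, symMap_sym, B.map_map, B.map_map, e]
  exact h hz

theorem symMap_comp (B : Blow K) (j : k₁ →+* k₂) (hj : ∀ (g : G) (a : k₁), j (g • a) = g • j a)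
    (j' : k₂ →+* k₃) (hj' : ∀ (g : G) (a : k₂), j' (g • a) = g • j' a)
    (hjj : ∀ (g : G) (a : k₁), (j'.comp j) (g • a) = g • (j'.comp j) a)
    (z : FreeAbelianGroup (Sym K k₁ G)) :
    symMap K j' hj' (symMap K j hj z) = symMap K (j'.comp j) hjj z := by
  have h : (symMap K j' hj').comp (symMap K j hj) = symMap K (j'.comp j) hjj := by
    refine FreeAbelianGroup.lift_ext _ _ fun s => ?_
    obtain ⟨H, x⟩ := s
    show symMap K j' hj' (symMap K j hj (sym K H x)) = symMap K _ hjj (sym K H x)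
    rw [symMap_sym, symMap_sym, symMap_sym, B.map_map, mapHom_comp]
  exact DFunLike.congr_fun h z

end sym

section sub

variable {k G : Type} [Field k] [Group G] [MulSemiringAction G k]

variable (G) in
/-- the subfield generated by the orbits of the elements of `T` -/
def LL (T : Set k) : Subfield k := Subfield.closure {x | ∃ g : G, ∃ a ∈ T, x = g • a}

theorem LL_mono {T T' : Set k} (h : T ⊆ T') : LL G T ≤ LL G T' :=
  Subfield.closure_mono fun _ ⟨g, a, ha, e⟩ => ⟨g, a, h ha, e⟩

theorem subset_LL {T : Set k} : T ⊆ LL G T := fun a ha =>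
  Subfield.subset_closure ⟨1, a, ha, (one_smul G a).symm⟩

instance invLL (T : Set k) : IsInvariantSubfield G (LL G T) := by
  refine ⟨fun g x hx => ?_⟩
  have h : LL G T ≤ (LL G T).comap (MulSemiringAction.toRingHom G k g) := by
    unfold LL
    rw [Subfield.closure_le]
    rintro _ ⟨g', a, ha, rfl⟩
    refine Subfield.subset_closure ⟨g * g', a, ha, ?_⟩
    show g • (g' • a) = _
    rw [mul_smul]
  exact h hx

theorem smul_coe (T : Set k) (g : G) (a : LL G T) : ((g • a : LL G T) : k) = g • (a : k) := rfl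

/-- the kernel of the action -/
def NN (T : Set k) : Subgroup G := (MulSemiringAction.toRingAut G (LL G T)).ker

theorem mem_NN (T : Set k) (g : G) : g ∈ (NN T : Subgroup G) ↔ ∀ a : LL G T, g • a = a := by
  unfold NN
  rw [MonoidHom.mem_ker]
  constructor
  · intro h a
    have := DFunLike.congr_fun h a
    exact this
  · intro h
    ext a
    exact congrArg _ (h a)

instance (T : Set k) : (NN T : Subgroup G).Normal := by
  unfold NN
  infer_instance

theorem NN_finite {T : Set k} (hT : T.Finite) (horb : ∀ a : k, (MulAction.orbit G a).Finite) :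
    (NN T : Subgroup G).FiniteIndex := by
  -- the finite set of the generators
  have hS : {x : k | ∃ g : G, ∃ a ∈ T, x = g • a}.Finite := by
    have : {x : k | ∃ g : G, ∃ a ∈ T, x = g • a} = ⋃ a ∈ T, MulAction.orbit G a := by
      ext x
      simp only [Set.mem_ofPred_eq, Set.mem_iUnion, MulAction.mem_orbit_iff, exists_prop]
      constructor
      · rintro ⟨g, a, ha, rfl⟩
        exact ⟨a, ha, g, rfl⟩
      · rintro ⟨a, ha, g, rfl⟩
        exact ⟨g, a, ha, rfl⟩
    rw [this]
    exact hT.biUnion fun a _ => horb a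
  have hst : ∀ a : k, (MulAction.stabilizer G a).FiniteIndex := by
    intro a
    haveI : Finite (MulAction.orbit G a) := horb a
    haveI : Finite (G ⧸ MulAction.stabilizer G a) :=
      Finite.of_equiv _ (MulAction.orbitEquivQuotientStabilizer G a)
    exact Subgroup.finiteIndex_of_finite_quotient
  haveI : Finite {x : k | ∃ g : G, ∃ a ∈ T, x = g • a} := hS
  have hinf : (⨅ x : {x : k | ∃ g : G, ∃ a ∈ T, x = g • a},
      MulAction.stabilizer G (x : k)).FiniteIndex :=
    Subgroup.finiteIndex_iInf fun x => hst x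
  refine Subgroup.finiteIndex_of_le (H := ⨅ x : {x : k | ∃ g : G, ∃ a ∈ T, x = g • a},
      MulAction.stabilizer G (x : k)) fun g hg => ?_
  rw [Subgroup.mem_iInf] at hg
  rw [mem_NN]
  have h1 : LL G T ≤ RingHom.eqLocusField (MulSemiringAction.toRingHom G k g) (RingHom.id k) := by
    unfold LL
    rw [Subfield.closure_le]
    intro x hx
    exact hg ⟨x, hx⟩
  intro a
  exact Subtype.ext (h1 a.2)

/-- the embedding -/
def emb (T : Set k) : LL G T →+* k := (LL G T).subtype

theorem emb_smul (T : Set k) (g : G) (a : LL G T) : emb T (g • a) = g • emb T a := rfl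

theorem emb_apply (T : Set k) (a : LL G T) : emb T a = (a : k) := rfl

/-- the inclusion -/
def inc {T T' : Set k} (h : T ⊆ T') : LL G T →+* LL G T' :=
  (emb T).codRestrict (LL G T') fun a => LL_mono h a.2

theorem inc_coe {T T' : Set k} (h : T ⊆ T') (a : LL G T) : ((inc h a : LL G T') : k) = a :=
  RingHom.codRestrict_apply _ _ _ _

theorem inc_smul {T T' : Set k} (h : T ⊆ T') (g : G) (a : LL G T) :
    inc h (g • a) = g • inc h a := by
  apply Subtype.ext
  rw [inc_coe, smul_coe, smul_coe, inc_coe]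

theorem emb_inc {T T' : Set k} (h : T ⊆ T') : (emb T').comp (inc h) = emb (G := G) T := by
  refine RingHom.ext fun a => ?_
  rw [RingHom.comp_apply, emb_apply, emb_apply, inc_coe]

end sub

/-- composition, with the composite given -/
theorem mapHom_comp' {k₁ k₂ k₃ : Type} [Field k₁] [Field k₂] [Field k₃] {M : Type} [Monoid M]
    [MulSemiringAction M k₁] [MulSemiringAction M k₂] [MulSemiringAction M k₃]
    (j : k₁ →+* k₂) (hj : ∀ (m : M) (a : k₁), j (m • a) = m • j a)
    (j' : k₂ →+* k₃) (hj' : ∀ (m : M) (a : k₂), j' (m • a) = m • j' a)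
    (j'' : k₁ →+* k₃) (hj'' : ∀ (m : M) (a : k₁), j'' (m • a) = m • j'' a)
    (e : j'.comp j = j'') :
    (mapHom j' hj').comp (mapHom j hj) = mapHom j'' hj'' := by
  subst e
  exact mapHom_comp _ _ _ _ _

theorem symMap_comp' {K : RFun} (B : Blow K) {k₁ k₂ k₃ : Type} [Field k₁] [Field k₂] [Field k₃]
    {G : Type} [Group G]
    [MulSemiringAction G k₁] [MulSemiringAction G k₂] [MulSemiringAction G k₃]
    (j : k₁ →+* k₂) (hj : ∀ (g : G) (a : k₁), j (g • a) = g • j a)
    (j' : k₂ →+* k₃) (hj' : ∀ (g : G) (a : k₂), j' (g • a) = g • j' a)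
    (j'' : k₁ →+* k₃) (hj'' : ∀ (g : G) (a : k₁), j'' (g • a) = g • j'' a)
    (e : j'.comp j = j'') (z : FreeAbelianGroup (Sym K k₁ G)) :
    symMap K j' hj' (symMap K j hj z) = symMap K j'' hj'' z := by
  subst e
  exact symMap_comp B _ _ _ _ _ _

section red

variable {K : RFun} {k G : Type} [Field k] [Group G] [MulSemiringAction G k]

theorem symMap_inc (B : Blow K) {T T' : Set k} (h : T ⊆ T')
    (y : FreeAbelianGroup (Sym K (LL G T) G)) :
    symMap K (emb T') (emb_smul T') (symMap K (inc h) (inc_smul h) y) =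
      symMap K (emb T) (emb_smul T) y :=
  symMap_comp' B _ _ _ _ _ _ (emb_inc h) y

/-- the range of the embedding of the skew group rings -/
theorem range_emb {H : Subgroup G} (T : Set k) (y : SkewMonoidAlgebra k H)
    (hy : ∀ m ∈ y.support, y.coeff m ∈ T) :
    y ∈ Set.range (mapHom (emb (G := G) T) (equivSub (emb_smul T) H)) := by
  refine mapHom_range _ _ _ fun m => ?_
  have h1 : y.coeff m ∈ LL G T := by
    by_cases hm : y.coeff m = 0
    · rw [hm]
      exact zero_mem _
    · exact subset_LL (hy m (SkewMonoidAlgebra.mem_support_iff.2 hm))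
  exact ⟨⟨_, h1⟩, rfl⟩

theorem range_emb' (T : Set k) (y : SkewMonoidAlgebra k G)
    (hy : ∀ m ∈ y.support, y.coeff m ∈ T) :
    y ∈ Set.range (mapHom (emb (G := G) T) (emb_smul T)) := by
  refine mapHom_range _ _ _ fun m => ?_
  have h1 : y.coeff m ∈ LL G T := by
    by_cases hm : y.coeff m = 0
    · rw [hm]
      exact zero_mem _
    · exact subset_LL (hy m (SkewMonoidAlgebra.mem_support_iff.2 hm))
  exact ⟨⟨_, h1⟩, rfl⟩

/-- the finite set of the coefficients -/
theorem exists_coeffs {M : Type} (s : Finset (SkewMonoidAlgebra k M)) :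
    ∃ T : Finset k, ∀ y ∈ s, ∀ m ∈ y.support, y.coeff m ∈ T := by
  classical
  refine ⟨s.biUnion fun y => y.support.image y.coeff, fun y hy m hm => ?_⟩
  rw [Finset.mem_biUnion]
  exact ⟨y, hy, Finset.mem_image_of_mem _ hm⟩

theorem exists_small (B : Blow K) (hC : Cont K) (z : FreeAbelianGroup (Sym K k G)) :
    ∃ T : Finset k, ∃ z' : FreeAbelianGroup (Sym K (LL G (T : Set k)) G),
      symMap K (emb (T : Set k)) (emb_smul _) z' = z := by
  classical
  induction z using FreeAbelianGroup.induction_on with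
  | zero => exact ⟨∅, 0, map_zero _⟩
  | of s =>
    obtain ⟨H, x⟩ := s
    obtain ⟨s, hs⟩ := hC.1 (SkewMonoidAlgebra k H.1) x
    obtain ⟨T, hT⟩ := exists_coeffs s
    obtain ⟨x', hx'⟩ := hs (SkewMonoidAlgebra (LL G (T : Set k)) H.1)
      (mapHom (emb (G := G) (T : Set k)) (equivSub (emb_smul _) H.1)) (mapHom_injective _ _)
      (fun b hb => range_emb _ _ fun m hm => Finset.mem_coe.2 (hT b hb m hm))
    refine ⟨T, sym K H x', ?_⟩
    rw [symMap_sym, hx']
    rfl
  | neg s hs =>
    obtain ⟨T, z', h⟩ := hs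
    exact ⟨T, -z', by rw [map_neg, h]⟩
  | add z₁ z₂ h₁ h₂ =>
    obtain ⟨T₁, y₁, h₁⟩ := h₁
    obtain ⟨T₂, y₂, h₂⟩ := h₂
    have i₁ : (T₁ : Set k) ⊆ ((T₁ ∪ T₂ : Finset k) : Set k) :=
      Finset.coe_subset.2 Finset.subset_union_left
    have i₂ : (T₂ : Set k) ⊆ ((T₁ ∪ T₂ : Finset k) : Set k) :=
      Finset.coe_subset.2 Finset.subset_union_right
    refine ⟨T₁ ∪ T₂, symMap K (inc i₁) (inc_smul i₁) y₁ + symMap K (inc i₂) (inc_smul i₂) y₂, ?_⟩
    rw [map_add, symMap_inc B, symMap_inc B, h₁, h₂]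

/-- the relation `n • asmPre z = 0` holds over a larger small subfield -/
theorem exists_larger (B : Blow K) (hC : Cont K) (T : Finset k) (n : ℕ)
    (z' : FreeAbelianGroup (Sym K (LL G (T : Set k)) G))
    (hz : n • asmPre K k G (symMap K (emb (T : Set k)) (emb_smul _) z') = 0) :
    ∃ (T' : Finset k) (h : (T : Set k) ⊆ (T' : Set k)),
      n • asmPre K (LL G (T' : Set k)) G (symMap K (inc h) (inc_smul h) z') = 0 := by
  classical
  have h1 : K.map (mapHom (emb (T : Set k)) (emb_smul _))
      (n • asmPre K (LL G (T : Set k)) G z') = 0 := by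
    rw [map_nsmul, ← asm_symMap B]
    exact hz
  obtain ⟨s, hs⟩ := hC.2 _ _ _ _ h1
  obtain ⟨T₁, hT₁⟩ := exists_coeffs s
  have i₁ : (T : Set k) ⊆ ((T ∪ T₁ : Finset k) : Set k) :=
    Finset.coe_subset.2 Finset.subset_union_left
  refine ⟨T ∪ T₁, i₁, ?_⟩
  have h2 := hs (SkewMonoidAlgebra (LL G ((T ∪ T₁ : Finset k) : Set k)) G)
    (mapHom (inc i₁) (inc_smul i₁)) (mapHom (emb _) (emb_smul _)) (mapHom_injective _ _)
    (mapHom_comp' _ _ _ _ _ _ (emb_inc i₁))
    (fun b hb => range_emb' _ _ fun m hm =>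
      Finset.mem_coe.2 (Finset.mem_union_right _ (hT₁ b hb m hm)))
  rw [map_nsmul, ← asm_symMap B] at h2
  exact h2

theorem torsion_symMap (B : Blow K) {T : Set k} (l : ℕ)
    (y : FreeAbelianGroup (Sym K (LL G T) G))
    (h : l • (QuotientAddGroup.mk y : Colim K (LL G T) G) = 0) :
    l • (QuotientAddGroup.mk (symMap K (emb T) (emb_smul T) y) : Colim K k G) = 0 := by
  have h5 : l • y ∈ AddSubgroup.closure (Rel K (LL G T) G) :=
    (QuotientAddGroup.eq_zero_iff (l • y)).1 h
  have h6 := symMap_rel B (emb T) (emb_smul T) _ h5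
  rw [map_nsmul] at h6
  exact (QuotientAddGroup.eq_zero_iff _).2 h6

end red

theorem s_DIR : S_DIR := by
  intro K hB hC hfin k G _ _ _ horb z n hn hz
  obtain ⟨B⟩ := hB
  obtain ⟨T, z', rfl⟩ := exists_small B hC z
  obtain ⟨T', h, h2⟩ := exists_larger B hC T n z' hz
  haveI : (NN (T' : Set k) : Subgroup G).FiniteIndex := NN_finite T'.finite_toSet horb
  obtain ⟨l, hl, h3⟩ := hfin (LL G (T' : Set k)) G (NN (T' : Set k)) (mem_NN _) _ n hn h2
  refine ⟨l, hl, ?_⟩
  rw [← symMap_inc B h z']
  exact torsion_symMap B l _ h3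

end

end Pool.Agent.L7h70.TW
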