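import Pool.Agent.L7h59.TW.Def

/-!
# TW-GAL: the invertible matrix `(q • e_j)`
-/

set_option autoImplicit false

open Matrix

namespace Pool.Agent.L7h70.TW

theorem s_GAL : Pool.Agent.L7h59.TW.S_GAL := by
  intro k G _ _ _ N _ _ _ hN
  let φ : G ⧸ N →* RingAut k := QuotientGroup.lift N (MulSemiringAction.toRingAut G k) (by
    intro g hg
    ext a
    exact (hN g).1 hg a)
  have hφ : ∀ (g : G) (a : k), φ (g : G ⧸ N) a = g • a := fun g a => rfl
  have hinj : ∀ q q' : G ⧸ N, (∀ a, φ q a = φ q' a) → q = q' := by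
    intro q q' h
    obtain ⟨g, rfl⟩ := QuotientGroup.mk_surjective q
    obtain ⟨g', rfl⟩ := QuotientGroup.mk_surjective q'
    rw [QuotientGroup.eq]
    refine (hN _).2 fun a => ?_
    have h1 := h a
    rw [hφ, hφ] at h1
    rw [mul_smul, ← h1, inv_smul_smul]
  letI act : MulSemiringAction (G ⧸ N) k := MulSemiringAction.compHom k φ
  have hact : ∀ (q : G ⧸ N) (a : k), q • a = φ q a := fun q a => rfl
  haveI : FaithfulSMul (G ⧸ N) k := ⟨fun {q q'} h => hinj q q' h⟩
  have hfin := FixedPoints.finrank_eq_card (G ⧸ N) k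
  haveI : FiniteDimensional (FixedPoints.subfield (G ⧸ N) k) k :=
    FiniteDimensional.of_finrank_pos (by rw [hfin]; exact Fintype.card_pos)
  let e : Module.Basis (G ⧸ N) (FixedPoints.subfield (G ⧸ N) k) k :=
    (Module.finBasisOfFinrankEq _ _ hfin).reindex (Fintype.equivFin (G ⧸ N)).symm
  let u : Matrix (G ⧸ N) (G ⧸ N) k := Matrix.of fun q j => q • e j
  have hu : IsUnit u := by
    rw [← Matrix.linearIndependent_rows_iff_isUnit, Fintype.linearIndependent_iff]
    intro c hc
    -- `Σ c_q (q • x) = 0` for all `x`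
    have h1 : ∀ x : k, ∑ q, c q * (q • x) = 0 := by
      intro x
      have h2 : ∀ j, ∑ q, c q * (q • e j) = 0 := by
        intro j
        have := congrFun hc j
        simpa [u, Matrix.row, Finset.sum_apply] using this
      have h3 : ∀ (a : FixedPoints.subfield (G ⧸ N) k) (y : k) (q : G ⧸ N),
          q • (a • y) = a • (q • y) := by
        intro a y q
        rw [Subfield.smul_def, Subfield.smul_def, smul_eq_mul, smul_eq_mul, smul_mul']
        congr 1
        exact a.2 q
      rw [← e.sum_repr x]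
      simp_rw [Finset.smul_sum, h3, Finset.mul_sum]
      rw [Finset.sum_comm]
      refine Finset.sum_eq_zero fun j _ => ?_
      simp_rw [mul_smul_comm]
      rw [← Finset.smul_sum, h2 j, smul_zero]
    -- Dedekind
    let ψ : G ⧸ N → (k →* k) := fun q => (φ q : k →* k)
    have hψ : Function.Injective ψ := by
      intro q q' h
      refine hinj q q' fun a => ?_
      exact DFunLike.congr_fun h a
    have h4 := (linearIndependent_monoidHom k k).comp ψ hψ
    rw [Fintype.linearIndependent_iff] at h4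
    refine h4 c ?_
    funext x
    have := h1 x
    simpa [Finset.sum_apply, ψ, hact] using this
  obtain ⟨U, hU⟩ := hu
  refine ⟨u, ↑U⁻¹, ?_, ?_, ?_⟩
  · rw [← hU]
    exact U.mul_inv
  · rw [← hU]
    exact U.inv_mul
  · intro g q j
    obtain ⟨x, rfl⟩ := QuotientGroup.mk_surjective q
    show φ (g • (x : G ⧸ N)) (e j) = g • φ (x : G ⧸ N) (e j)
    rw [hφ]
    show φ ((g * x : G) : G ⧸ N) (e j) = _
    rw [hφ, mul_smul]

end Pool.Agent.L7h70.TW
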